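import Pool.Agent.H3.Tens.Machine

/-!
The counter: explicit symbol and carry sequences, and the resulting lower bound (MP_51d02f_co).
-/

namespace MP51d02f

open Set E

/-- The symbol sequence: marker, then the `N - 1` digits of `s / N` in base `D`. -/
def xs (D N : ℕ) (hD : 0 < D) (s : ℕ) : Fin (D + 1) :=
  if s % N = 0 then Fin.last D
  else ⟨(s / N) / D ^ (s % N - 1) % D, by have := Nat.mod_lt ((s / N) / D ^ (s % N - 1)) hD; omega⟩

/-- The carry sequence. -/
def qs (D N : ℕ) (s : ℕ) : Bool :=
  if s % N = 0 then decide (0 < s ∧ D ^ (N - 1) ∣ s / N)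
  else decide (D ^ (s % N - 1) ∣ s / N + 1)

theorem digit_succ (D : ℕ) (hD : 0 < D) (k r : ℕ) :
    (k + 1) / D ^ r % D = if D ^ r ∣ k + 1 then
      (if k / D ^ r % D + 1 < D then k / D ^ r % D + 1 else 0) else k / D ^ r % D := by
  rw [Nat.succ_div]
  split_ifs with h1 h2
  · exact (mod_succ_lt h2).1
  · have := Nat.mod_lt (k / D ^ r) hD
    exact (mod_succ_eq hD (by omega)).1
  · rfl

theorem dvd_succ_iff (D : ℕ) (hD : 0 < D) (k r : ℕ) :
    D ^ (r + 1) ∣ k + 1 ↔ (D ^ r ∣ k + 1 ∧ k / D ^ r % D + 1 = D) := by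
  have hpos : 0 < D ^ r := pow_pos hD r
  constructor
  · intro h
    have h1 : D ^ r ∣ k + 1 := dvd_trans (pow_dvd_pow D (Nat.le_succ r)) h
    refine ⟨h1, ?_⟩
    have h2 : (k + 1) / D ^ r = k / D ^ r + 1 := by rw [Nat.succ_div, if_pos h1]
    have h3 : D ∣ k / D ^ r + 1 := by
      rw [← h2]
      apply Nat.dvd_div_of_mul_dvd
      rwa [pow_succ] at h
    have hlt := Nat.mod_lt (k / D ^ r) hD
    by_contra hne
    have := (mod_succ_lt (b := D) (t := k / D ^ r) (by omega)).1
    rw [Nat.mod_eq_zero_of_dvd h3] at this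
    omega
  · rintro ⟨h1, h2⟩
    have h3 : (k + 1) / D ^ r = k / D ^ r + 1 := by rw [Nat.succ_div, if_pos h1]
    have h4 := (mod_succ_eq hD h2).1
    have h5 : D ∣ (k + 1) / D ^ r := by rw [h3]; exact Nat.dvd_of_mod_eq_zero h4
    rw [pow_succ]
    obtain ⟨c, hc⟩ := h1
    rw [hc, Nat.mul_div_cancel_left _ hpos] at h5
    rw [hc]
    exact Nat.mul_dvd_mul_left _ h5

section seq

variable {D N : ℕ} (hD : 0 < D)

theorem xs_add (hN : 2 ≤ N) (s : ℕ) :
    xs D N hD (s + N) = g1 (xs D N hD s) (qs D N s) := by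
  have hN0 : 0 < N := by omega
  have e1 : (s + N) % N = s % N := Nat.add_mod_right s N
  have e2 : (s + N) / N = s / N + 1 := Nat.add_div_right s hN0
  by_cases h : s % N = 0
  · have l : xs D N hD (s + N) = Fin.last D := by rw [xs, if_pos (by rw [e1]; exact h)]
    have rr : xs D N hD s = Fin.last D := by rw [xs, if_pos h]
    rw [l, rr, g1, if_pos (by simp)]
  · have l : (xs D N hD (s + N)).val = (s / N + 1) / D ^ (s % N - 1) % D := by
      rw [xs, if_neg (by rw [e1]; exact h)]
      show (s + N) / N / D ^ ((s + N) % N - 1) % D = _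
      rw [e1, e2]
    have rr : (xs D N hD s).val = (s / N) / D ^ (s % N - 1) % D := by rw [xs, if_neg h]
    have hlt : (s / N) / D ^ (s % N - 1) % D < D := Nat.mod_lt _ hD
    have hq : qs D N s = decide (D ^ (s % N - 1) ∣ s / N + 1) := by rw [qs, if_neg h]
    apply Fin.ext
    rw [l, g1, if_neg (show ¬ (xs D N hD s).val = D by rw [rr]; omega), hq, digit_succ D hD]
    by_cases hd : D ^ (s % N - 1) ∣ s / N + 1
    · have hd' : decide (D ^ (s % N - 1) ∣ s / N + 1) = true := by simpa using hd
      rw [if_pos hd, if_pos hd']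
      by_cases h2 : (s / N) / D ^ (s % N - 1) % D + 1 < D
      · rw [if_pos h2, dif_pos (by rw [rr]; exact h2)]
        simp only [rr]
      · rw [if_neg h2, dif_neg (by rw [rr]; exact h2)]
        simp
    · have hd' : ¬ (decide (D ^ (s % N - 1) ∣ s / N + 1) = true) := by simpa using hd
      rw [if_neg hd, if_neg hd', rr]

theorem qs_succ (hN : 2 ≤ N) (s : ℕ) :
    qs D N (s + 1) = g2 (xs D N hD s) (qs D N s) := by
  have hN0 : 0 < N := by omega
  have hlt : s % N < N := Nat.mod_lt _ hN0
  by_cases h : s % N = 0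
  · have rr : (xs D N hD s).val = D := by rw [xs, if_pos h]; simp
    rw [g2, if_pos rr]
    obtain ⟨m1, m2⟩ := mod_succ_lt (b := N) (t := s) (by omega)
    rw [qs, if_neg (by omega), m1, h]
    simp
  · have rr : (xs D N hD s).val = (s / N) / D ^ (s % N - 1) % D := by rw [xs, if_neg h]
    have hlt2 : (s / N) / D ^ (s % N - 1) % D < D := Nat.mod_lt _ hD
    have hq : qs D N s = decide (D ^ (s % N - 1) ∣ s / N + 1) := by rw [qs, if_neg h]
    rw [g2, if_neg (by rw [rr]; omega), hq, rr, ← Bool.decide_and]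
    have key := dvd_succ_iff D hD (s / N) (s % N - 1)
    have e3 : s % N - 1 + 1 = s % N := by omega
    rw [e3] at key
    by_cases h2 : s % N + 1 < N
    · obtain ⟨m1, m2⟩ := mod_succ_lt h2
      rw [qs, if_neg (by omega), m1, m2, Nat.add_sub_cancel]
      exact decide_eq_decide.2 key
    · obtain ⟨m1, m2⟩ := mod_succ_eq hN0 (by omega : s % N + 1 = N)
      rw [qs, if_pos m1, m2]
      have e4 : N - 1 = s % N := by omega
      rw [e4]
      apply decide_eq_decide.2
      rw [← key]
      constructor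
      · rintro ⟨-, h3⟩
        exact h3
      · intro h3
        exact ⟨by omega, h3⟩

theorem no_overflow (hN : 2 ≤ N) (s : ℕ) (hs : s < N * D ^ (N - 1))
    (h : (xs D N hD s).val = D) : qs D N s = false := by
  have hN0 : 0 < N := by omega
  by_cases h0 : s % N = 0
  · rw [qs, if_pos h0]
    apply decide_eq_false
    rintro ⟨h1, h2⟩
    have h3 : s / N < D ^ (N - 1) := Nat.div_lt_of_lt_mul hs
    have h4 : 0 < s / N := by
      apply Nat.div_pos _ hN0
      exact Nat.le_of_dvd h1 (Nat.dvd_of_mod_eq_zero h0)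
    exact absurd (Nat.le_of_dvd h4 h2) (by omega)
  · have rr : (xs D N hD s).val = (s / N) / D ^ (s % N - 1) % D := by rw [xs, if_neg h0]
    have hlt2 : (s / N) / D ^ (s % N - 1) % D < D := Nat.mod_lt _ hD
    omega

theorem overflow (hN : 2 ≤ N) : (xs D N hD (N * D ^ (N - 1))).val = D ∧
    qs D N (N * D ^ (N - 1)) = true := by
  have hN0 : 0 < N := by omega
  have e : N * D ^ (N - 1) % N = 0 := Nat.mul_mod_right _ _
  constructor
  · rw [xs, if_pos e]; simp
  · rw [qs, if_pos e]
    apply decide_eq_true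
    refine ⟨Nat.mul_pos hN0 (pow_pos hD _), ?_⟩
    rw [Nat.mul_div_cancel_left _ hN0]

end seq

/-- The main lower bound. -/
theorem lower_bound {m n b h D N' : ℕ} (hm : 3 ≤ m) (hb : 0 < b) (hD : 0 < D) (hN : 0 < N')
    (hDc : D + 1 ≤ b.choose h) (hn : N' * b + 3 * b * 2 ^ b + 2 ≤ n) :
    (N' + 1) * b * D ^ N' ≤ r m n := by
  classical
  -- the alphabet
  have hcardset : Fintype.card {A : Finset (Fin b) // A.card = h} = b.choose h := by
    rw [Fintype.card_finset_len, Fintype.card_fin]
  obtain ⟨f⟩ : Nonempty (Fin (D + 1) ↪ {A : Finset (Fin b) // A.card = h}) := by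
    apply Function.Embedding.nonempty_of_card_le
    rw [Fintype.card_fin, hcardset]
    exact hDc
  let sig : Fin (D + 1) → Finset (Fin b) := fun a => (f a).1
  have hsig : Function.Injective sig := fun a a' haa => f.injective (Subtype.ext haa)
  have hcard : ∀ a, (sig a).card = h := fun a => (f a).2
  have hD1 : D + 1 ≤ 2 ^ b := hDc.trans (Nat.choose_le_two_pow b h)
  set R := N' * b with hR
  have hRpos : 0 < R := Nat.mul_pos hN hb
  have h3 : b * (2 ^ b * 2) + b * (D + 1) ≤ 3 * b * 2 ^ b := by
    have : b * (D + 1) ≤ b * 2 ^ b := Nat.mul_le_mul_left b hD1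
    calc b * (2 ^ b * 2) + b * (D + 1) ≤ b * (2 ^ b * 2) + b * 2 ^ b := by omega
      _ = 3 * b * 2 ^ b := by ring
  obtain ⟨w, hw⟩ : ∃ w, R + b * (2 ^ b * 2) + b * (D + 1) + 2 + w = n :=
    ⟨n - (R + b * (2 ^ b * 2) + b * (D + 1) + 2), by omega⟩
  set N := N' + 1 with hNdef
  have hN2 : 2 ≤ N := by omega
  have hNN : N - 1 = N' := by omega
  let x := xs D N hD
  let Q := qs D N
  let C : ℕ → Set (E b R D w) := fun t => Config sig x Q N' t
  let s0 := N * D ^ (N - 1)
  -- one step inside the good range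
  have hstep : ∀ t, t + 1 < (s0 + 1) * b →
      {u | ∃ p1 ∈ C t, ∃ p2 ∈ C t, Rule sig (C 0) u p1 p2} = C (t + 1) := by
    intro t ht
    have hlast : t % b + 1 = b → t / b < s0 := by
      intro hl
      obtain ⟨m1, m2⟩ := mod_succ_eq hb hl
      have h5 : (t + 1) / b < s0 + 1 := by
        apply Nat.div_lt_of_lt_mul
        rw [mul_comm]; exact ht
      omega
    refine step_config hsig hcard hb hRpos hR (C 0) t ?_ ?_ ?_
    · intro hl
      have := xs_add hD hN2 (t / b)
      rw [hNdef, ← add_assoc] at this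
      exact this
    · intro hl
      exact qs_succ hD hN2 (t / b)
    · intro hl h6
      exact no_overflow hD hN2 (t / b) (hlast hl) h6
  have horb : ∀ t, t < (s0 + 1) * b → orb (Rule sig (C 0)) start (t + 1) = C t := by
    intro t
    induction t with
    | zero =>
      intro _
      ext u
      constructor
      · rintro ⟨p, hp, q, hq, hr⟩
        have hp' : p = start := hp
        have hq' : q = start := hq
        subst hp' hq'
        rcases hr with ⟨h7, -⟩ | ⟨-, -, h7⟩ | hr
        · exact absurd h7 (by simp)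
        · exact h7
        · exfalso
          cases u with
          | cell p => simp at hr
          | rd i A q => simp [Done] at hr
          | wr i a => simp [Done] at hr
          | start => exact hr
          | omega => simp [Done] at hr
          | pad l => exact hr
      · intro hu
        exact ⟨start, rfl, start, rfl, Or.inr (Or.inl ⟨rfl, rfl, hu⟩)⟩
    | succ t ih =>
      intro ht
      have e := ih (by omega)
      rw [← hstep t ht, ← e]
      rfl
  have hnotC : ∀ t, (omega : E b R D w) ∉ C t := fun t ht => ht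
  have hs0b : 0 < (s0 + 1) * b := Nat.mul_pos (by omega) hb
  have hK : ∀ k, k < (s0 + 1) * b + 1 → orb (Rule sig (C 0)) start k ≠ univ := by
    intro k hk heq
    have hom : (omega : E b R D w) ∈ orb (Rule sig (C 0)) start k := by rw [heq]; trivial
    cases k with
    | zero => exact absurd hom (by simp [orb])
    | succ k =>
      rw [horb k (by omega)] at hom
      exact hnotC k hom
  have htop : ∃ k, 1 ≤ k ∧ orb (Rule sig (C 0)) start k = univ := by
    obtain ⟨t, ht⟩ : ∃ t, t + 1 = (s0 + 1) * b := ⟨(s0 + 1) * b - 1, by omega⟩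
    refine ⟨t + 1 + 1 + 1, by omega, ?_⟩
    have e1 : t / b = s0 ∧ t % b = b - 1 := by
      rw [Nat.div_mod_unique hb]
      constructor
      · have h8 : (s0 + 1) * b = b * s0 + b := by ring
        rw [h8] at ht
        generalize b * s0 = y at *
        omega
      · omega
    have hl : t % b + 1 = b := by omega
    have hdone := (done_iff (w := w) (x := x) (Q := Q) (N' := N') hsig hcard hb hRpos
      (x (t / b)) (Q (t / b)) t).2 ⟨hl, rfl, rfl⟩
    obtain ⟨p1, h1, p2, h2, hd⟩ := hdone
    obtain ⟨o1, o2⟩ := overflow hD hN2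
    have e2 : orb (Rule sig (C 0)) start (t + 1) = C t := horb t (by omega)
    have hom : (omega : E b R D w) ∈ orb (Rule sig (C 0)) start (t + 1 + 1) := by
      refine ⟨p1, ?_, p2, ?_, Or.inr (Or.inr ⟨x (t / b), Q (t / b), hd, ?_, ?_⟩)⟩
      · rw [e2]; exact h1
      · rw [e2]; exact h2
      · rw [e1.1]; exact o1
      · rw [e1.1]; exact o2
    ext u
    simp only [mem_univ, iff_true]
    exact ⟨omega, hom, omega, hom, Or.inl ⟨rfl, rfl⟩⟩
  have hcardE : Fintype.card (E b R D w) = n := by rw [E.card_eq, hw]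
  have hRlt : R - 1 < R := by omega
  have hbad : ∀ u, ¬ Rule sig (C 0) u (cell ⟨R - 1, hRlt⟩) (cell ⟨R - 1, hRlt⟩) := by
    intro u hr
    rcases hr with ⟨h7, -⟩ | ⟨h7, -⟩ | hr
    · exact absurd h7 (by simp)
    · exact absurd h7 (by simp)
    · cases u with
      | cell p =>
        rcases hr with ⟨p', hp', h8, -⟩ | ⟨-, i, a, -, h8, -⟩
        · have h9 := p.2
          have h10 : R - 1 = p'.val := by
            have := E.cell.inj h8
            exact congrArg Fin.val this
          omega
        · exact absurd h8 (by simp)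
      | rd i A q => simp [Done] at hr
      | wr i a => simp [Done] at hr
      | start => exact hr
      | omega => simp [Done] at hr
      | pad l => exact hr
  have := le_r_of_rules (Rule sig (C 0)) hcardE hm start (cell ⟨R - 1, hRlt⟩)
    ((s0 + 1) * b + 1) hK htop hbad
  refine le_trans ?_ this
  have e9 : s0 = (N' + 1) * D ^ N' := by
    show N * D ^ (N - 1) = _
    rw [hNN]
  rw [e9]
  calc (N' + 1) * b * D ^ N' = (N' + 1) * D ^ N' * b := by ring
    _ ≤ ((N' + 1) * D ^ N' + 1) * b + 1 := by
      have h12 : ((N' + 1) * D ^ N' + 1) * b = (N' + 1) * D ^ N' * b + b := by ring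
      omega

end MP51d02f
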