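import Mathlib

/-!
Orbits `S_k(A,j)`, `j`-primitivity, `gamma_j` and the number `r(m,n)` for nonnegative tensors
(problem MP_51d02f_co), and the passage from a finite system of rules with at most two premises.
-/

namespace MP51d02f

open Set

/-- The array of a tensor of order `m` and dimension `n`: the entry `a_{u i_2 ... i_m}` is
`A u f` where `f : Fin (m - 1) → Fin n` lists the `m - 1` indices `i_2, ..., i_m`. -/
abbrev Tensor (m n : ℕ) := Fin n → (Fin (m - 1) → Fin n) → ℝ

/-- The sets `S_k(A,j)`.  The sets of the problem are those with `k ≥ 1`; the value at `k = 0`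
is the convention `S_0 = {j}`, with which the recursion also gives `S_1` (see `S_one`). -/
def S {m n : ℕ} (A : Tensor m n) (j : Fin n) : ℕ → Set (Fin n)
  | 0 => {j}
  | k + 1 => {u | ∃ f : Fin (m - 1) → Fin n, (∀ i, f i ∈ S A j k) ∧ 0 < A u f}

/-- `S_1(A,j) = {u : a_{u j ... j} > 0}`. -/
theorem S_one {m n : ℕ} (A : Tensor m n) (j : Fin n) :
    S A j 1 = {u | 0 < A u (fun _ => j)} := by
  ext u
  constructor
  · rintro ⟨f, hf, hA⟩
    have : f = fun _ => j := funext fun i => hf i
    rw [this] at hA
    exact hA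
  · intro h
    exact ⟨fun _ => j, fun i => rfl, h⟩

/-- The recursion of the problem. -/
theorem S_succ {m n : ℕ} (A : Tensor m n) (j : Fin n) (k : ℕ) :
    S A j (k + 1) = {u | ∃ f : Fin (m - 1) → Fin n, (∀ i, f i ∈ S A j k) ∧ 0 < A u f} := rfl

/-- `A` is `j`-primitive: `S_k(A,j) = [n]` for some `k ≥ 1`. -/
def JPrimitive {m n : ℕ} (A : Tensor m n) (j : Fin n) : Prop :=
  ∃ k, 1 ≤ k ∧ S A j k = univ

/-- `gamma_j(A)`: the least `k ≥ 1` with `S_k(A,j) = [n]` (junk value `0` if there is none). -/
noncomputable def gamma {m n : ℕ} (A : Tensor m n) (j : Fin n) : ℕ :=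
  sInf {k | 1 ≤ k ∧ S A j k = univ}

/-- `A` is primitive: it is `j`-primitive for every `j`. -/
def Primitive {m n : ℕ} (A : Tensor m n) : Prop := ∀ j, JPrimitive A j

/-- The set of all `gamma_j(A)` with `A` nonnegative, not primitive and `j`-primitive. -/
def exponents (m n : ℕ) : Set ℕ :=
  {k | ∃ A : Tensor m n, (∀ u f, 0 ≤ A u f) ∧ ¬ Primitive A ∧
    ∃ j, JPrimitive A j ∧ gamma A j = k}

/-- `r(m,n)`, the largest element of `exponents m n`. -/
noncomputable def r (m n : ℕ) : ℕ := sSup (exponents m n)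

theorem gamma_spec {m n : ℕ} {A : Tensor m n} {j : Fin n} (h : JPrimitive A j) :
    1 ≤ gamma A j ∧ S A j (gamma A j) = univ :=
  Nat.sInf_mem (s := {k | 1 ≤ k ∧ S A j k = univ}) h

theorem gamma_min {m n : ℕ} {A : Tensor m n} {j : Fin n} {k : ℕ} (h1 : 1 ≤ k)
    (h : S A j k = univ) : gamma A j ≤ k :=
  Nat.sInf_le (s := {k | 1 ≤ k ∧ S A j k = univ}) ⟨h1, h⟩

theorem S_add_eq {m n : ℕ} {A : Tensor m n} {j : Fin n} {a b : ℕ} (h : S A j a = S A j b)
    (i : ℕ) : S A j (a + i) = S A j (b + i) := by
  induction i with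
  | zero => exact h
  | succ i ih =>
    rw [← add_assoc, ← add_assoc, S_succ, S_succ, ih]

/-- Every exponent is at most `2^n` (the sets `S_1, ..., S_gamma` are distinct). -/
theorem gamma_le {m n : ℕ} {A : Tensor m n} {j : Fin n} (h : JPrimitive A j) :
    gamma A j ≤ 2 ^ n := by
  classical
  obtain ⟨h1, h2⟩ := gamma_spec h
  set g := gamma A j with hg
  have inj : Function.Injective (fun i : Fin g => S A j (i.val + 1)) := by
    have key : ∀ a b : ℕ, a < b → b < g → S A j (a + 1) ≠ S A j (b + 1) := by
      intro a b hab hb heq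
      have e := S_add_eq heq (g - (b + 1))
      have e1 : b + 1 + (g - (b + 1)) = g := by omega
      rw [e1, h2] at e
      have := gamma_min (A := A) (j := j) (by omega) e
      omega
    intro a b hab
    rcases lt_trichotomy a.val b.val with hlt | heq | hgt
    · exact absurd hab (key _ _ hlt b.2)
    · exact Fin.ext heq
    · exact absurd hab.symm (key _ _ hgt a.2)
  have := Fintype.card_le_of_injective _ inj
  simpa using this

theorem bddAbove_exponents (m n : ℕ) : BddAbove (exponents m n) := by
  refine ⟨2 ^ n, ?_⟩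
  rintro k ⟨A, -, -, j, hj, rfl⟩
  exact gamma_le hj

/-! ### Rule systems with two premises -/

/-- The orbit of `s` under the rules. -/
def orb {V : Type} (Rule : V → V → V → Prop) (s : V) : ℕ → Set V
  | 0 => {s}
  | k + 1 => {u | ∃ p ∈ orb Rule s k, ∃ q ∈ orb Rule s k, Rule u p q}

/-- Transfer from rule systems to `r(m,n)`. -/
theorem le_r_of_rules {V : Type} [Fintype V] (Rule : V → V → V → Prop) {m n : ℕ}
    (hcard : Fintype.card V = n) (hm : 3 ≤ m) (s s' : V) (K : ℕ)
    (hK : ∀ k, k < K → orb Rule s k ≠ univ) (htop : ∃ k, 1 ≤ k ∧ orb Rule s k = univ)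
    (hbad : ∀ u, ¬ Rule u s' s') : K ≤ r m n := by
  classical
  let e : V ≃ Fin n := Fintype.equivFinOfCardEq hcard
  let i0 : Fin (m - 1) := ⟨0, by omega⟩
  let i1 : Fin (m - 1) := ⟨1, by omega⟩
  let A : Tensor m n := fun u f =>
    if Rule (e.symm u) (e.symm (f i0)) (e.symm (f i1)) then 1 else 0
  have hpos : ∀ u f, 0 < A u f ↔ Rule (e.symm u) (e.symm (f i0)) (e.symm (f i1)) := by
    intro u f
    by_cases h : Rule (e.symm u) (e.symm (f i0)) (e.symm (f i1))
    · simp [A, h]
    · simp [A, h]
  have hS : ∀ (v : V) (k : ℕ), S A (e v) k = {u | e.symm u ∈ orb Rule v k} := by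
    intro v k
    induction k with
    | zero =>
      ext u
      simp only [S, orb, mem_singleton_iff, mem_ofPred_eq]
      exact (Equiv.symm_apply_eq e).symm
    | succ k ih =>
      ext u
      rw [S_succ]
      simp only [mem_ofPred_eq, orb]
      constructor
      · rintro ⟨f, hf, hA⟩
        rw [hpos] at hA
        have h0 := hf i0
        have h1 := hf i1
        rw [ih] at h0 h1
        exact ⟨_, h0, _, h1, hA⟩
      · rintro ⟨p, hp, q, hq, hR⟩
        refine ⟨fun i => if i = i0 then e p else e q, ?_, ?_⟩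
        · intro i
          rw [ih]
          by_cases hi : i = i0
          · simpa [hi] using hp
          · simpa [hi] using hq
        · have h10 : i1 ≠ i0 := by
            intro h
            have := congrArg Fin.val h
            simp [i0, i1] at this
          have h4 := (hpos u (fun i => if i = i0 then e p else e q)).2 (by simpa [h10] using hR)
          exact h4
  have huniv : ∀ (v : V) (k : ℕ), S A (e v) k = univ ↔ orb Rule v k = univ := by
    intro v k
    rw [hS]
    constructor
    · intro h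
      ext w
      simp only [mem_univ, iff_true]
      have : e w ∈ {u | e.symm u ∈ orb Rule v k} := by rw [h]; trivial
      simpa using this
    · intro h
      ext w
      simp [h]
  have hne : orb Rule s' 1 = ∅ := by
    ext u
    simp only [orb, mem_singleton_iff, mem_ofPred_eq, mem_empty_iff_false, iff_false]
    rintro ⟨p, rfl, q, rfl, h⟩
    exact hbad u h
  have hall : ∀ k, orb Rule s' (k + 1) = ∅ := by
    intro k
    induction k with
    | zero => exact hne
    | succ k ih =>
      ext u
      simp only [mem_empty_iff_false, iff_false]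
      rintro ⟨p, hp, -⟩
      rw [ih] at hp
      exact hp
  have hnonprim : ¬ Primitive A := by
    intro h
    obtain ⟨k, hk, hk2⟩ := h (e s')
    rw [huniv] at hk2
    obtain ⟨k, rfl⟩ : ∃ l, k = l + 1 := ⟨k - 1, by omega⟩
    rw [hall k] at hk2
    have : s ∈ (∅ : Set V) := by rw [hk2]; trivial
    exact this
  have hJ : JPrimitive A (e s) := by
    obtain ⟨k, hk, hk2⟩ := htop
    exact ⟨k, hk, (huniv s k).2 hk2⟩
  have hg : K ≤ gamma A (e s) := by
    by_contra hlt
    push Not at hlt
    have := (gamma_spec hJ).2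
    rw [huniv] at this
    exact hK _ hlt this
  refine le_trans hg ?_
  apply le_csSup (bddAbove_exponents m n)
  refine ⟨A, ?_, hnonprim, e s, hJ, rfl⟩
  intro u f
  by_cases h : Rule (e.symm u) (e.symm (f i0)) (e.symm (f i1))
  · simp [A, h]
  · simp [A, h]

/-- For `n ≥ 2` and `m ≥ 3` the number `r(m,n)` is at least `1`. -/
theorem one_le_r {m n : ℕ} (hm : 3 ≤ m) (hn : 2 ≤ n) : 1 ≤ r m n := by
  let z : Fin n := ⟨0, by omega⟩
  let o : Fin n := ⟨1, by omega⟩
  refine le_r_of_rules (V := Fin n) (fun _ p q => p = z ∧ q = z) (by simp) hm z o 1 ?_ ?_ ?_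
  · intro k hk
    have : k = 0 := by omega
    subst this
    intro h
    have h1 : o ∈ ({z} : Set (Fin n)) := by
      have : orb (fun _ p q => p = z ∧ q = z) z 0 = {z} := rfl
      rw [← this, h]; trivial
    have := congrArg Fin.val h1
    simp [z, o] at this
  · refine ⟨1, le_rfl, ?_⟩
    ext u
    simp [orb]
  · rintro u ⟨h, -⟩
    have := congrArg Fin.val h
    simp [z, o] at this

/-- `r(m,n)` is attained. -/
theorem r_mem {m n : ℕ} (hm : 3 ≤ m) (hn : 2 ≤ n) : r m n ∈ exponents m n := by
  apply Nat.sSup_mem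
  · by_contra h
    rw [Set.not_nonempty_iff_eq_empty] at h
    have := one_le_r hm hn
    rw [r, h] at this
    simp at this
  · exact bddAbove_exponents m n

theorem r_le {m n : ℕ} (hm : 3 ≤ m) (hn : 2 ≤ n) : r m n ≤ 2 ^ n := by
  obtain ⟨A, -, -, j, hj, he⟩ := r_mem hm hn
  rw [← he]
  exact gamma_le hj

end MP51d02f
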