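import Pool.Agent.H3.Tens.Defs

/-!
The machine: a ring of cells read bit by bit, with an alphabet of subsets of `Fin b` of equal
size, as a rule system with at most two premises (MP_51d02f_co).
-/

namespace MP51d02f

open Set

/-- The elements of the rule system: cells of the shift register, states of the reader, states
of the writer, the starting element, the final element, and padding. -/
inductive E (b R D w : ℕ) where
  | cell (p : Fin R)
  | rd (i : Fin b) (A : Finset (Fin b)) (q : Bool)
  | wr (i : Fin b) (a : Fin (D + 1))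
  | start
  | omega
  | pad (l : Fin w)

namespace E

variable {b R D w : ℕ}

/-- Counting the elements. -/
def equivSum (b R D w : ℕ) :
    E b R D w ≃ (Fin R ⊕ (Fin b × Finset (Fin b) × Bool) ⊕ (Fin b × Fin (D + 1)) ⊕ Bool ⊕ Fin w)
    where
  toFun
    | cell p => Sum.inl p
    | rd i A q => Sum.inr (Sum.inl (i, A, q))
    | wr i a => Sum.inr (Sum.inr (Sum.inl (i, a)))
    | start => Sum.inr (Sum.inr (Sum.inr (Sum.inl false)))
    | omega => Sum.inr (Sum.inr (Sum.inr (Sum.inl true)))
    | pad l => Sum.inr (Sum.inr (Sum.inr (Sum.inr l)))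
  invFun
    | Sum.inl p => cell p
    | Sum.inr (Sum.inl (i, A, q)) => rd i A q
    | Sum.inr (Sum.inr (Sum.inl (i, a))) => wr i a
    | Sum.inr (Sum.inr (Sum.inr (Sum.inl false))) => start
    | Sum.inr (Sum.inr (Sum.inr (Sum.inl true))) => omega
    | Sum.inr (Sum.inr (Sum.inr (Sum.inr l))) => pad l
  left_inv := by
    intro x
    cases x <;> rfl
  right_inv := by
    rintro (x | ⟨i, A, q⟩ | ⟨i, a⟩ | (_ | _) | l) <;> rfl

noncomputable instance : Fintype (E b R D w) := Fintype.ofEquiv _ (equivSum b R D w).symm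

theorem card_eq : Fintype.card (E b R D w) = R + b * (2 ^ b * 2) + b * (D + 1) + 2 + w := by
  rw [Fintype.card_congr (equivSum b R D w)]
  simp only [Fintype.card_sum, Fintype.card_prod, Fintype.card_fin, Fintype.card_finset,
    Fintype.card_bool]
  ring

end E

open E

/-- New symbol: the marker `D` is kept, a digit is increased (modulo `D`) if there is a carry. -/
def g1 {D : ℕ} (a : Fin (D + 1)) (q : Bool) : Fin (D + 1) :=
  if a.val = D then a else
    if q = true then (if h : a.val + 1 < D then ⟨a.val + 1, by omega⟩ else 0) else a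

/-- New carry. -/
def g2 {D : ℕ} (a : Fin (D + 1)) (q : Bool) : Bool :=
  if a.val = D then true else (q && decide (a.val + 1 = D))

section rules

variable {b R D w : ℕ} (sig : Fin (D + 1) → Finset (Fin b))

/-- The premises `p1, p2` state that the reader has finished the symbol `a` with carry `q`. -/
def Done (a : Fin (D + 1)) (q : Bool) (p1 p2 : E b R D w) : Prop :=
  ∃ (i : Fin b) (A : Finset (Fin b)), i.val + 1 = b ∧ p1 = rd i A q ∧
    ((p2 = p1 ∧ sig a = A) ∨ ∃ c : Fin R, c.val + 1 = R ∧ p2 = cell c ∧ sig a = insert i A)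

/-- The bit stream. -/
def beta (x : ℕ → Fin (D + 1)) (t : ℕ) : Prop :=
  ∃ i : Fin b, i.val = t % b ∧ i ∈ sig (x (t / b))

/-- The configuration at time `t`. -/
def Config (x : ℕ → Fin (D + 1)) (Q : ℕ → Bool) (N' : ℕ) (t : ℕ) : Set (E b R D w) :=
  fun u => match u with
    | cell p => beta sig x (t + (R - 1 - p.val))
    | rd i A q => i.val = t % b ∧ q = Q (t / b) ∧ ∀ a ∈ A, a.val < t % b ∧ a ∈ sig (x (t / b))
    | wr i a => i.val = t % b ∧ a = x (t / b + N')
    | start => False
    | omega => False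
    | pad _ => False

/-- The rules: `Rule u p1 p2` means that `u` is produced by `p1` and `p2`. -/
def Rule (C0 : Set (E b R D w)) (u p1 p2 : E b R D w) : Prop :=
  (p1 = omega ∧ p2 = omega) ∨ (p1 = start ∧ p2 = start ∧ u ∈ C0) ∨
  match u with
    | cell p => (∃ p' : Fin R, p'.val + 1 = p.val ∧ p1 = cell p' ∧ p2 = p1) ∨
        (p.val = 0 ∧ ∃ i a, i ∈ sig a ∧ p1 = wr i a ∧ p2 = p1)
    | rd i A q => (∃ i' : Fin b, i'.val + 1 = i.val ∧ ((p1 = rd i' A q ∧ p2 = p1) ∨
          ∃ A', A = insert i' A' ∧ p1 = rd i' A' q ∧ ∃ c : Fin R, c.val + 1 = R ∧ p2 = cell c)) ∨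
        (i.val = 0 ∧ A = ∅ ∧ ∃ a q', Done sig a q' p1 p2 ∧ q = g2 a q')
    | wr i a => (∃ i' : Fin b, i'.val + 1 = i.val ∧ p1 = wr i' a ∧ p2 = p1) ∨
        (i.val = 0 ∧ ∃ a' q', Done sig a' q' p1 p2 ∧ a = g1 a' q')
    | start => False
    | omega => ∃ a q', Done sig a q' p1 p2 ∧ a.val = D ∧ q' = true
    | pad _ => False

end rules

theorem mod_succ_lt {b t : ℕ} (h : t % b + 1 < b) : (t + 1) % b = t % b + 1 ∧
    (t + 1) / b = t / b := by
  have hb : 0 < b := by omega
  have e : (t + 1) / b = t / b ∧ (t + 1) % b = t % b + 1 := by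
    rw [Nat.div_mod_unique hb]
    refine ⟨?_, h⟩
    have := Nat.mod_add_div t b
    omega
  exact ⟨e.2, e.1⟩

theorem mod_succ_eq {b t : ℕ} (hb : 0 < b) (h : t % b + 1 = b) : (t + 1) % b = 0 ∧
    (t + 1) / b = t / b + 1 := by
  have e : (t + 1) / b = t / b + 1 ∧ (t + 1) % b = 0 := by
    rw [Nat.div_mod_unique hb]
    refine ⟨?_, hb⟩
    have := Nat.mod_add_div t b
    rw [mul_add, mul_one]
    omega
  exact ⟨e.2, e.1⟩

section step

variable {b R D w : ℕ} {sig : Fin (D + 1) → Finset (Fin b)} {hh : ℕ}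
  {x : ℕ → Fin (D + 1)} {Q : ℕ → Bool} {N' : ℕ}

theorem done_iff (hsig : Function.Injective sig) (hcard : ∀ a, (sig a).card = hh)
    (hb : 0 < b) (hR : 0 < R) (a : Fin (D + 1)) (q : Bool) (t : ℕ) :
    (∃ p1 ∈ (Config sig x Q N' t : Set (E b R D w)), ∃ p2 ∈ (Config sig x Q N' t : Set (E b R D w)),
      Done sig a q p1 p2) ↔
    (t % b + 1 = b ∧ a = x (t / b) ∧ q = Q (t / b)) := by
  classical
  constructor
  · rintro ⟨p1, h1, p2, h2, i, A, hi, rfl, hh2⟩
    obtain ⟨hi2, hq, hA⟩ := h1
    refine ⟨by omega, ?_, hq⟩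
    apply hsig
    rcases hh2 with ⟨-, he⟩ | ⟨c, hc, rfl, he⟩
    · rw [he]
      refine Finset.eq_of_subset_of_card_le (fun z hz => (hA z hz).2) ?_
      rw [hcard, ← he, hcard]
    · refine Finset.eq_of_subset_of_card_le ?_ ?_
      · rw [he]
        intro z hz
        rw [Finset.mem_insert] at hz
        rcases hz with rfl | hz
        · obtain ⟨i', hi', hm⟩ : beta sig x (t + (R - 1 - c.val)) := h2
          have e0 : t + (R - 1 - c.val) = t := by omega
          rw [e0] at hi' hm
          have : z = i' := Fin.ext (by omega)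
          rw [this]; exact hm
        · exact (hA z hz).2
      · rw [hcard, hcard]
  · rintro ⟨hi, rfl, rfl⟩
    have hlt : t % b < b := Nat.mod_lt _ hb
    let i : Fin b := ⟨t % b, hlt⟩
    by_cases hm : i ∈ sig (x (t / b))
    · have hc : R - 1 < R := by omega
      refine ⟨rd i ((sig (x (t / b))).erase i) (Q (t / b)), ⟨rfl, rfl, ?_⟩,
        cell ⟨R - 1, hc⟩, ?_, i, (sig (x (t / b))).erase i, hi, rfl, Or.inr
          ⟨⟨R - 1, hc⟩, by simp; omega, rfl, (Finset.insert_erase hm).symm⟩⟩
      · intro z hz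
        rw [Finset.mem_erase] at hz
        refine ⟨?_, hz.2⟩
        have : z.val ≠ t % b := fun h => hz.1 (Fin.ext h)
        have := z.2
        omega
      · change beta sig x (t + (R - 1 - (R - 1)))
        rw [Nat.sub_self, add_zero]
        exact ⟨i, rfl, hm⟩
    · refine ⟨rd i (sig (x (t / b))) (Q (t / b)), ⟨rfl, rfl, ?_⟩,
        rd i (sig (x (t / b))) (Q (t / b)), ⟨rfl, rfl, ?_⟩, i, sig (x (t / b)), hi, rfl,
        Or.inl ⟨rfl, rfl⟩⟩
      all_goals
        intro z hz
        refine ⟨?_, hz⟩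
        have h1 : z.val ≠ t % b := by
          intro h
          apply hm
          have : i = z := Fin.ext h.symm
          rw [this]; exact hz
        have := z.2
        omega

theorem step_config (hsig : Function.Injective sig) (hcard : ∀ a, (sig a).card = hh)
    (hb : 0 < b) (hR : 0 < R) (hRN : R = N' * b) (C0 : Set (E b R D w)) (t : ℕ)
    (hx : t % b + 1 = b → x (t / b + N' + 1) = g1 (x (t / b)) (Q (t / b)))
    (hQ : t % b + 1 = b → Q (t / b + 1) = g2 (x (t / b)) (Q (t / b)))
    (hno : t % b + 1 = b → (x (t / b)).val = D → Q (t / b) = false) :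
    {u | ∃ p1 ∈ (Config sig x Q N' t : Set (E b R D w)),
      ∃ p2 ∈ (Config sig x Q N' t : Set (E b R D w)), Rule sig C0 u p1 p2} =
    Config sig x Q N' (t + 1) := by
  classical
  have hdone := done_iff (w := w) (x := x) (Q := Q) (N' := N') hsig hcard hb hR
  have hlt : t % b < b := Nat.mod_lt _ hb
  -- the two general rules do not apply inside a configuration
  have hom : ∀ p, p ∈ (Config sig x Q N' t : Set (E b R D w)) → p ≠ omega := by
    rintro p hp rfl; exact hp
  have hst : ∀ p, p ∈ (Config sig x Q N' t : Set (E b R D w)) → p ≠ start := by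
    rintro p hp rfl; exact hp
  have hc : R - 1 < R := by omega
  have hcell : ∀ c : Fin R, c.val + 1 = R →
      (cell c ∈ (Config sig x Q N' t : Set (E b R D w)) ↔ beta sig x t) := by
    intro c hc
    have e0 : t + (R - 1 - c.val) = t := by omega
    change beta sig x (t + (R - 1 - c.val)) ↔ _
    rw [e0]
  ext u
  rw [Set.mem_ofPred_eq]
  cases u with
  | cell p =>
    constructor
    · rintro ⟨p1, h1, p2, h2, hr⟩
      rcases hr with ⟨h, -⟩ | ⟨h, -⟩ | hr
      · exact absurd h (hom _ h1)
      · exact absurd h (hst _ h1)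
      rcases hr with ⟨p', hp', rfl, rfl⟩ | ⟨hp0, i, a, hia, rfl, rfl⟩
      · change beta sig x (t + 1 + (R - 1 - p.val))
        have h1' : beta sig x (t + (R - 1 - p'.val)) := h1
        have e : t + (R - 1 - p'.val) = t + 1 + (R - 1 - p.val) := by
          have := p.2
          omega
        rwa [e] at h1'
      · change beta sig x (t + 1 + (R - 1 - p.val))
        obtain ⟨hi, ha⟩ := h1
        have e : t + 1 + (R - 1 - p.val) = t + N' * b := by omega
        rw [e]
        refine ⟨i, ?_, ?_⟩
        · rw [Nat.add_mul_mod_self_right]; exact hi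
        · rw [Nat.add_mul_div_right _ _ hb, ← ha]; exact hia
    · intro hu
      have hu' : beta sig x (t + 1 + (R - 1 - p.val)) := hu
      by_cases hp : p.val = 0
      · have e : t + 1 + (R - 1 - p.val) = t + N' * b := by omega
        rw [e] at hu'
        obtain ⟨i, hi, hm⟩ := hu'
        rw [Nat.add_mul_mod_self_right] at hi
        rw [Nat.add_mul_div_right _ _ hb] at hm
        refine ⟨wr i (x (t / b + N')), ⟨hi, rfl⟩, wr i (x (t / b + N')), ⟨hi, rfl⟩,
          Or.inr (Or.inr (Or.inr ⟨hp, i, _, hm, rfl, rfl⟩))⟩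
      · have hp' : p.val - 1 < R := by have := p.2; omega
        have hin : cell ⟨p.val - 1, hp'⟩ ∈ (Config sig x Q N' t : Set (E b R D w)) := by
          change beta sig x (t + (R - 1 - (p.val - 1)))
          have e : t + (R - 1 - (p.val - 1)) = t + 1 + (R - 1 - p.val) := by
            have := p.2
            omega
          rw [e]; exact hu'
        exact ⟨cell ⟨p.val - 1, hp'⟩, hin, cell ⟨p.val - 1, hp'⟩, hin,
          Or.inr (Or.inr (Or.inl ⟨⟨p.val - 1, hp'⟩, by simp; omega, rfl, rfl⟩))⟩
  | rd i A q =>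
    constructor
    · rintro ⟨p1, h1, p2, h2, hr⟩
      rcases hr with ⟨h, -⟩ | ⟨h, -⟩ | hr
      · exact absurd h (hom _ h1)
      · exact absurd h (hst _ h1)
      rcases hr with ⟨i', hi', hr⟩ | ⟨hi0, rfl, a, q', hd, hq⟩
      · rcases hr with ⟨rfl, rfl⟩ | ⟨A', rfl, rfl, c, hcc, rfl⟩
        · obtain ⟨e1, e2, e3⟩ := h1
          have hl : t % b + 1 < b := by have := i.2; omega
          obtain ⟨m1, m2⟩ := mod_succ_lt hl
          refine ⟨by rw [m1]; omega, by rw [m2]; exact e2, ?_⟩
          intro z hz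
          obtain ⟨f1, f2⟩ := e3 z hz
          rw [m1, m2]
          exact ⟨by omega, f2⟩
        · obtain ⟨e1, e2, e3⟩ := h1
          have hl : t % b + 1 < b := by have := i.2; omega
          obtain ⟨m1, m2⟩ := mod_succ_lt hl
          refine ⟨by rw [m1]; omega, by rw [m2]; exact e2, ?_⟩
          intro z hz
          rw [m1, m2]
          rw [Finset.mem_insert] at hz
          rcases hz with rfl | hz
          · obtain ⟨i2, hi2, hm2⟩ := (hcell c hcc).1 h2
            have : z = i2 := Fin.ext (by omega)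
            rw [this]
            exact ⟨by omega, hm2⟩
          · obtain ⟨f1, f2⟩ := e3 z hz
            exact ⟨by omega, f2⟩
      · obtain ⟨hl, ha, hq2⟩ := (hdone a q' t).1 ⟨p1, h1, p2, h2, hd⟩
        obtain ⟨m1, m2⟩ := mod_succ_eq hb hl
        refine ⟨by rw [m1]; exact hi0, ?_, ?_⟩
        · rw [m2, hQ hl, hq, ha, hq2]
        · intro z hz
          exact absurd hz (Finset.notMem_empty z)
    · rintro ⟨e1, e2, e3⟩
      by_cases hl : t % b + 1 < b
      · obtain ⟨m1, m2⟩ := mod_succ_lt hl
        rw [m1] at e1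
        rw [m2] at e2
        rw [m1, m2] at e3
        let i' : Fin b := ⟨t % b, hlt⟩
        by_cases hm : i' ∈ A
        · have hin : rd i' (A.erase i') q ∈ (Config sig x Q N' t : Set (E b R D w)) := by
            refine ⟨rfl, e2, ?_⟩
            intro z hz
            rw [Finset.mem_erase] at hz
            obtain ⟨f1, f2⟩ := e3 z hz.2
            refine ⟨?_, f2⟩
            have : z.val ≠ t % b := fun h => hz.1 (Fin.ext h)
            omega
          have hcin : cell ⟨R - 1, hc⟩ ∈ (Config sig x Q N' t : Set (E b R D w)) := by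
            rw [hcell _ (by simp; omega)]
            exact ⟨i', rfl, (e3 i' hm).2⟩
          exact ⟨_, hin, _, hcin, Or.inr (Or.inr (Or.inl ⟨i', e1.symm, Or.inr
            ⟨A.erase i', (Finset.insert_erase hm).symm, rfl, ⟨R - 1, hc⟩, by simp; omega,
              rfl⟩⟩))⟩
        · have hin : rd i' A q ∈ (Config sig x Q N' t : Set (E b R D w)) := by
            refine ⟨rfl, e2, ?_⟩
            intro z hz
            obtain ⟨f1, f2⟩ := e3 z hz
            refine ⟨?_, f2⟩
            have : z.val ≠ t % b := by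
              intro h
              apply hm
              have : i' = z := Fin.ext h.symm
              rw [this]; exact hz
            omega
          exact ⟨_, hin, _, hin, Or.inr (Or.inr (Or.inl ⟨i', e1.symm, Or.inl ⟨rfl, rfl⟩⟩))⟩
      · have hl' : t % b + 1 = b := by omega
        obtain ⟨m1, m2⟩ := mod_succ_eq hb hl'
        rw [m1] at e1
        rw [m2] at e2
        rw [m1, m2] at e3
        have hA : A = ∅ := by
          rw [Finset.eq_empty_iff_forall_notMem]
          intro z hz
          have := (e3 z hz).1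
          omega
        obtain ⟨p1, h1, p2, h2, hd⟩ := (hdone (x (t / b)) (Q (t / b)) t).2 ⟨hl', rfl, rfl⟩
        exact ⟨p1, h1, p2, h2, Or.inr (Or.inr (Or.inr ⟨e1, hA, _, _, hd, by
          rw [e2, hQ hl']⟩))⟩
  | wr i a =>
    constructor
    · rintro ⟨p1, h1, p2, h2, hr⟩
      rcases hr with ⟨h, -⟩ | ⟨h, -⟩ | hr
      · exact absurd h (hom _ h1)
      · exact absurd h (hst _ h1)
      rcases hr with ⟨i', hi', rfl, rfl⟩ | ⟨hi0, a', q', hd, ha⟩
      · obtain ⟨e1, e2⟩ := h1
        have hl : t % b + 1 < b := by have := i.2; omega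
        obtain ⟨m1, m2⟩ := mod_succ_lt hl
        exact ⟨by rw [m1]; omega, by rw [m2]; exact e2⟩
      · obtain ⟨hl, ha', hq2⟩ := (hdone a' q' t).1 ⟨p1, h1, p2, h2, hd⟩
        obtain ⟨m1, m2⟩ := mod_succ_eq hb hl
        refine ⟨by rw [m1]; exact hi0, ?_⟩
        have e : (t + 1) / b + N' = t / b + N' + 1 := by rw [m2]; ring
        rw [e, hx hl, ha, ha', hq2]
    · rintro ⟨e1, e2⟩
      by_cases hl : t % b + 1 < b
      · obtain ⟨m1, m2⟩ := mod_succ_lt hl
        rw [m1] at e1
        rw [m2] at e2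
        have hin : wr ⟨t % b, hlt⟩ a ∈ (Config sig x Q N' t : Set (E b R D w)) := ⟨rfl, e2⟩
        exact ⟨_, hin, _, hin, Or.inr (Or.inr (Or.inl ⟨⟨t % b, hlt⟩, e1.symm, rfl, rfl⟩))⟩
      · have hl' : t % b + 1 = b := by omega
        obtain ⟨m1, m2⟩ := mod_succ_eq hb hl'
        rw [m1] at e1
        have e : (t + 1) / b + N' = t / b + N' + 1 := by rw [m2]; ring
        rw [e, hx hl'] at e2
        obtain ⟨p1, h1, p2, h2, hd⟩ := (hdone (x (t / b)) (Q (t / b)) t).2 ⟨hl', rfl, rfl⟩
        exact ⟨p1, h1, p2, h2, Or.inr (Or.inr (Or.inr ⟨e1, _, _, hd, e2⟩))⟩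
  | start =>
    constructor
    · rintro ⟨p1, h1, p2, h2, hr⟩
      rcases hr with ⟨h, -⟩ | ⟨h, -⟩ | hr
      · exact absurd h (hom _ h1)
      · exact absurd h (hst _ h1)
      · exact hr
    · intro h
      exact absurd h (fun h => h)
  | omega =>
    constructor
    · rintro ⟨p1, h1, p2, h2, hr⟩
      rcases hr with ⟨h, -⟩ | ⟨h, -⟩ | hr
      · exact absurd h (hom _ h1)
      · exact absurd h (hst _ h1)
      · obtain ⟨a, q', hd, ha, hq⟩ := hr
        obtain ⟨hl, ha', hq2⟩ := (hdone a q' t).1 ⟨p1, h1, p2, h2, hd⟩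
        rw [ha'] at ha
        have := hno hl ha
        rw [hq2, this] at hq
        exact absurd hq (by decide)
    · intro h
      exact absurd h (fun h => h)
  | pad l =>
    constructor
    · rintro ⟨p1, h1, p2, h2, hr⟩
      rcases hr with ⟨h, -⟩ | ⟨h, -⟩ | hr
      · exact absurd h (hom _ h1)
      · exact absurd h (hst _ h1)
      · exact hr
    · intro h
      exact absurd h (fun h => h)

end step

end MP51d02f
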